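import Pool.Agent.H53Lang.Every

/-!
# C-principality does not imply closure under `T`: as many counterexamples as there are families

The set of all `{agsm⁻¹}`-principal families has the cardinality of the continuum, and so has the
set of the families which are `{agsm⁻¹}`-principal and `C`-principal, contain all the regular
languages and a nonregular language, and contain `T(M)` for no language `M` that has a word with
at least two letters.
-/

namespace Pool.Agent.Results.MP_c9c291_lc.ContinuumMany

open Cardinal Pool.Agent.H53Lang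

/-- The `{agsm⁻¹}`-principal and `C`-principal families which contain all regular languages and a
nonregular one, but no language `T(M)` where `M` has a word with at least two letters. -/
def Bad : Set (Set Lang) := {𝓛 | Principal AgsmInv 𝓛 ∧ Principal COp 𝓛 ∧
    (∀ M : Lang, M.L.IsRegular → M ∈ 𝓛) ∧ (∃ M ∈ 𝓛, ¬ M.L.IsRegular) ∧
    ∀ M : Lang, (∃ w ∈ M.L, 2 ≤ w.length) → T M ∉ 𝓛}

theorem le_mk_Bad : 𝔠 ≤ #Bad := by
  let f : NP → Set Lang := fun x => @Fam ⟨x.1, x.2⟩
  have hf : ∀ b, (f ⁻¹' {b}).Countable := by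
    intro b
    by_cases hb : ∃ x, f x = b
    · obtain ⟨x, rfl⟩ := hb
      have hc := countable_members ⟨x.1, x.2⟩
      have := hc.to_subtype
      have hinj : Function.Injective (fun y : f ⁻¹' {f x} =>
          (⟨{w | @L1 ⟨y.1.1, y.1.2⟩ w}, by
            have h1 := @L0_mem ⟨y.1.1, y.1.2⟩
            have h2 : f y.1 = f x := y.2
            have h3 : @Fam ⟨y.1.1, y.1.2⟩ = @Fam ⟨x.1, x.2⟩ := h2
            rw [h3] at h1
            exact h1⟩ :
            {L : Language Sg | (⟨Sg, inferInstance, L⟩ : Lang) ∈ @Fam ⟨x.1, x.2⟩})) := by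
        rintro ⟨y, hy⟩ ⟨y', hy'⟩ h
        have h0 : ({w | @L1 ⟨y.1, y.2⟩ w} : Set (List Sg)) = {w | @L1 ⟨y'.1, y'.2⟩ w} :=
          congrArg Subtype.val h
        have h1 : ∀ w, @L1 ⟨y.1, y.2⟩ w → @L1 ⟨y'.1, y'.2⟩ w := fun w hw => by
          have : w ∈ ({w | @L1 ⟨y.1, y.2⟩ w} : Set (List Sg)) := hw
          rw [h0] at this
          exact this
        have h2 := gen_inj _ _ h1
        exact Subtype.ext (Subtype.ext h2)
      exact hinj.countable
    · have : f ⁻¹' {b} = ∅ := by
        ext x
        simp only [Set.mem_preimage, Set.mem_singleton_iff, Set.mem_empty_iff_false, iff_false]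
        exact fun h => hb ⟨x, h⟩
      rw [this]; exact Set.countable_empty
  refine (many f hf mk_NP).trans (Cardinal.mk_le_mk_of_subset ?_)
  rintro _ ⟨x, rfl⟩
  let _ : Om := ⟨x.1, x.2⟩
  exact ⟨principal_agsm, principal_C, fun M hM => mem_of_regular M.X M.fin M.L hM,
    ⟨L0, L0_mem, L0_nonreg⟩, not_closed'⟩

/-- **Full answer to Q1 (the conjecture is false), with the number and the strength of the
counterexamples.** There are exactly continuum many `{agsm⁻¹}`-principal families, and exactly
continuum many of them are also `C`-principal, contain all regular languages and a nonregular one,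
and contain `T(M)` for no language `M` at all that has a word with at least two letters. -/
theorem result :
    #{𝓛 : Set Lang | Principal AgsmInv 𝓛} = 𝔠 ∧
    #{𝓛 : Set Lang | Principal AgsmInv 𝓛 ∧ Principal COp 𝓛 ∧
        (∀ M : Lang, M.L.IsRegular → M ∈ 𝓛) ∧ (∃ M ∈ 𝓛, ¬ M.L.IsRegular) ∧
        ∀ M : Lang, (∃ w ∈ M.L, 2 ≤ w.length) → T M ∉ 𝓛} = 𝔠 := by
  have h1 : Bad ⊆ {𝓛 : Set Lang | Principal AgsmInv 𝓛} := fun _ h => h.1
  have h2 := Cardinal.mk_le_mk_of_subset h1
  exact ⟨le_antisymm mk_principal_le (le_mk_Bad.trans h2),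
    le_antisymm (h2.trans mk_principal_le) le_mk_Bad⟩

end Pool.Agent.Results.MP_c9c291_lc.ContinuumMany
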